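import Mathlib
import Pool.Agent.Lib_MP_394d50_hk.BDefs
import Pool.Agent.Lib_MP_394d50_hk.ZMain

set_option autoImplicit false

namespace Pool.Agent.Results.MP_394d50_gt.HakenManifolds

open SingerVS SingerHK

/-- The Singer conjecture, in all dimensions `n`, for the closed manifolds which are virtually Haken. `X` is a simplicial
complex with a free simplicial action of the group `Γ` with finitely many orbits of simplices, `M = geo X / Γ`, and for a
subgroup `K` of finite index the complex `X` has a `K`-equivariant hierarchy which ends with Haken cells: `X` is cut along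
a family of disjoint walls into pieces, the pieces are cut along disjoint walls, and so on. Then the `ℓ²`-Betti numbers of
`M` vanish outside the middle dimension, the one in the middle dimension is the Euler characteristic up to the sign
`(-1)ᵏ`, and all of them vanish if and only if the Euler characteristic is zero. -/
theorem result (n : ℕ) (P Γ : Type) [LinearOrder P] [Group Γ] [MulAction Γ P]
    (X : Set (Finset P)) (hX : FreeCx Γ X) (K : Subgroup Γ) (hK : K.FiniteIndex)
    (h : Haken n (⊤ : Subgroup K) X ∅) :
    (∀ k, 2 * k ≠ n → bettiX Γ X k = 0) ∧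
    (∀ k, 2 * k = n → bettiX Γ X k = (-1 : ℝ) ^ k * (chiX Γ X : ℝ)) ∧
    ((∀ k, bettiX Γ X k = 0) ↔ chiX Γ X = 0) ∧
    (∀ k, 2 * k = n → 0 ≤ (-1) ^ k * chiX Γ X) :=
  main_haken hX K hK h

end Pool.Agent.Results.MP_394d50_gt.HakenManifolds
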